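import Pool.Agent.N89.BD.Stm
import Pool.Agent.N637.GS.BON

/-!
# BD (helper89), BN2: Poisson approximation with overlaps
-/

set_option autoImplicit false

namespace Pool.Agent.N935.BD.BN2

open Finset Pool.Agent.N637.GS.BON

/-- The sum over the image of a map. -/
lemma sum_le_surj {ι κ : Type} [DecidableEq ι] (S : Finset κ) (T : Finset ι) (g : ι → κ)
    (f : κ → ℝ) (hf : ∀ x, 0 ≤ f x) (h : ∀ K ∈ S, ∃ t ∈ T, g t = K) :
    ∑ K ∈ S, f K ≤ ∑ t ∈ T, f (g t) := by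
  classical
  have h' : ∀ K : S, ∃ t ∈ T, g t = K := fun K => h K.1 K.2
  choose s hs hg using h'
  have hinj : Function.Injective s := by
    intro a b hab
    have h1 := hg a
    rw [hab, hg b] at h1
    exact Subtype.ext h1.symm
  calc ∑ K ∈ S, f K = ∑ K : S, f K := (sum_coe_sort S f).symm
    _ = ∑ K : S, f (g (s K)) := sum_congr rfl fun K _ => by rw [hg K]
    _ = ∑ t ∈ univ.image s, f (g t) := by
        rw [sum_image fun a _ b _ hab => hinj hab]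
    _ ≤ ∑ t ∈ T, f (g t) := by
        apply sum_le_sum_of_subset_of_nonneg
        · intro t ht
          obtain ⟨K, -, rfl⟩ := mem_image.1 ht
          exact hs K
        · exact fun _ _ _ => hf _

variable {α : Type} [DecidableEq α]

/-- The probability that all the sets in `J` are contained in a random set. -/
def PP (p : ℝ) (J : Finset (Finset α)) : ℝ := p ^ (J.biUnion id).card

lemma PP_nonneg {p : ℝ} (hp : 0 ≤ p) (J : Finset (Finset α)) : 0 ≤ PP p J := pow_nonneg hp _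

lemma PP_insert (p : ℝ) (J : Finset (Finset α)) (Z : Finset α) :
    PP p (insert Z J) = PP p J * p ^ (Z \ J.biUnion id).card := by
  unfold PP
  rw [← pow_add, biUnion_insert, id, ← card_sdiff_add_card Z (J.biUnion id), add_comm]

/-- Adding `i` sets to `J₀`. -/
lemma add_sets (p : ℝ) (hp : 0 ≤ p) (𝒵 : Finset (Finset α)) (k₀ : ℕ) (D : ℝ) (hD : 0 ≤ D)
    (h : ∀ J ⊆ 𝒵, J.card ≤ k₀ → ∑ Z ∈ 𝒵, p ^ (Z \ J.biUnion id).card ≤ D)
    (J₀ : Finset (Finset α)) (hJ₀ : J₀ ⊆ 𝒵) (i : ℕ) (hi : J₀.card + i ≤ k₀) :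
    ∑ K ∈ 𝒵.powersetCard i, PP p (K ∪ J₀) ≤ D ^ i * PP p J₀ := by
  induction i with
  | zero => simp
  | succ i ih =>
    have ih' := ih (by omega)
    have h1 : ∑ K ∈ 𝒵.powersetCard (i + 1), PP p (K ∪ J₀) ≤
        ∑ t ∈ 𝒵.powersetCard i ×ˢ 𝒵, PP p (insert t.2 t.1 ∪ J₀) := by
      apply sum_le_surj (𝒵.powersetCard (i + 1)) (𝒵.powersetCard i ×ˢ 𝒵)
        (fun t : Finset (Finset α) × Finset α => insert t.2 t.1) (fun K => PP p (K ∪ J₀))
        (fun x => PP_nonneg hp _)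
      intro K hK
      obtain ⟨hK1, hK2⟩ := mem_powersetCard.1 hK
      have hne : K.Nonempty := by
        rw [← card_pos]
        omega
      obtain ⟨Z, hZ⟩ := hne
      refine ⟨(K.erase Z, Z), mem_product.2 ⟨mem_powersetCard.2 ⟨(erase_subset _ _).trans hK1, ?_⟩,
        hK1 hZ⟩, insert_erase hZ⟩
      rw [card_erase_of_mem hZ, hK2]
      rfl
    rw [sum_product] at h1
    refine h1.trans ?_
    calc ∑ K ∈ 𝒵.powersetCard i, ∑ Z ∈ 𝒵, PP p (insert Z K ∪ J₀)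
        = ∑ K ∈ 𝒵.powersetCard i, PP p (K ∪ J₀) *
            ∑ Z ∈ 𝒵, p ^ (Z \ (K ∪ J₀).biUnion id).card := by
          refine sum_congr rfl fun K _ => ?_
          rw [mul_sum]
          refine sum_congr rfl fun Z _ => ?_
          rw [insert_union, PP_insert]
      _ ≤ ∑ K ∈ 𝒵.powersetCard i, PP p (K ∪ J₀) * D := by
          refine sum_le_sum fun K hK => mul_le_mul_of_nonneg_left ?_ (PP_nonneg hp _)
          obtain ⟨hK1, hK2⟩ := mem_powersetCard.1 hK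
          apply h _ (union_subset hK1 hJ₀)
          have := card_union_le K J₀
          omega
      _ = D * ∑ K ∈ 𝒵.powersetCard i, PP p (K ∪ J₀) := by
          rw [← sum_mul, mul_comm]
      _ ≤ D * (D ^ i * PP p J₀) := mul_le_mul_of_nonneg_left ih' hD
      _ = D ^ (i + 1) * PP p J₀ := by ring

/-- Two different members of `J` meet. -/
def Ov (J : Finset (Finset α)) : Prop := ∃ Z₀ ∈ J, ∃ Z ∈ J, Z ≠ Z₀ ∧ (Z ∩ Z₀).Nonempty

open Classical in
lemma ov_sum (p : ℝ) (hp : 0 ≤ p) (𝒵 : Finset (Finset α)) (k₀ : ℕ) (D D₂ ε : ℝ) (hD : 0 ≤ D)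
    (hD₂ : 0 ≤ D₂) (hε : 0 ≤ ε) (h1 : ∑ Z ∈ 𝒵, p ^ Z.card ≤ D)
    (h : ∀ J ⊆ 𝒵, J.card ≤ k₀ → ∑ Z ∈ 𝒵, p ^ (Z \ J.biUnion id).card ≤ D₂)
    (h2 : ∀ Z₀ ∈ 𝒵, ∑ Z ∈ 𝒵 with Z ≠ Z₀ ∧ (Z ∩ Z₀).Nonempty, p ^ (Z \ Z₀).card ≤ ε)
    (j : ℕ) (hj : j ≤ k₀) :
    ∑ J ∈ (𝒵.powersetCard j).filter Ov, PP p J ≤ (D₂ + 1) ^ k₀ * (D * ε) := by
  rcases Nat.lt_or_ge j 2 with hj2 | hj2
  · have he : (𝒵.powersetCard j).filter Ov = ∅ := by
      apply filter_eq_empty_iff.2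
      rintro J hJ ⟨Z₀, hZ₀, Z, hZ, hne, -⟩
      have h3 : 1 < J.card := one_lt_card.2 ⟨Z, hZ, Z₀, hZ₀, hne⟩
      have h4 := (mem_powersetCard.1 hJ).2
      omega
    rw [he, sum_empty]
    positivity
  obtain ⟨i, rfl⟩ : ∃ i, j = i + 2 := ⟨j - 2, by omega⟩
  have hs : ∑ J ∈ (𝒵.powersetCard (i + 2)).filter Ov, PP p J ≤
      ∑ t ∈ 𝒵.sigma (fun Z₀ => (𝒵.filter fun Z => Z ≠ Z₀ ∧ (Z ∩ Z₀).Nonempty) ×ˢ
        𝒵.powersetCard i), PP p (t.2.2 ∪ {t.2.1, t.1}) := by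
    apply sum_le_surj ((𝒵.powersetCard (i + 2)).filter Ov)
      (𝒵.sigma (fun Z₀ => (𝒵.filter fun Z => Z ≠ Z₀ ∧ (Z ∩ Z₀).Nonempty) ×ˢ
        𝒵.powersetCard i)) (fun t => t.2.2 ∪ {t.2.1, t.1}) (PP p) (PP_nonneg hp)
    intro J hJ
    obtain ⟨hJ1, Z₀, hZ₀, Z, hZ, hne, hov⟩ := mem_filter.1 hJ
    obtain ⟨hJ2, hJ3⟩ := mem_powersetCard.1 hJ1
    refine ⟨⟨Z₀, Z, (J.erase Z₀).erase Z⟩, ?_, ?_⟩
    · refine mem_sigma.2 ⟨hJ2 hZ₀, mem_product.2 ⟨mem_filter.2 ⟨hJ2 hZ, hne, hov⟩,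
        mem_powersetCard.2 ⟨?_, ?_⟩⟩⟩
      · exact (erase_subset _ _).trans ((erase_subset _ _).trans hJ2)
      · rw [card_erase_of_mem (mem_erase.2 ⟨hne, hZ⟩), card_erase_of_mem hZ₀, hJ3]
        rfl
    · ext W
      simp only [mem_union, mem_erase, mem_insert, mem_singleton]
      constructor
      · rintro (⟨_, _, h⟩ | rfl | rfl)
        · exact h
        · exact hZ
        · exact hZ₀
      · intro hW
        by_cases e1 : W = Z
        · exact Or.inr (Or.inl e1)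
        · by_cases e2 : W = Z₀
          · exact Or.inr (Or.inr e2)
          · exact Or.inl ⟨e1, e2, hW⟩
  refine hs.trans ?_
  rw [sum_sigma]
  have hb : ∀ Z₀ ∈ 𝒵, ∑ t ∈ (𝒵.filter fun Z => Z ≠ Z₀ ∧ (Z ∩ Z₀).Nonempty) ×ˢ
      𝒵.powersetCard i, PP p (t.2 ∪ {t.1, Z₀}) ≤ D₂ ^ i * (p ^ Z₀.card * ε) := by
    intro Z₀ hZ₀
    rw [sum_product]
    calc ∑ Z ∈ 𝒵.filter fun Z => Z ≠ Z₀ ∧ (Z ∩ Z₀).Nonempty,
          ∑ K ∈ 𝒵.powersetCard i, PP p (K ∪ {Z, Z₀})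
        ≤ ∑ Z ∈ 𝒵.filter fun Z => Z ≠ Z₀ ∧ (Z ∩ Z₀).Nonempty,
            D₂ ^ i * (p ^ Z₀.card * p ^ (Z \ Z₀).card) := by
          refine sum_le_sum fun Z hZ => ?_
          obtain ⟨hZ1, hZ2, hZ3⟩ := mem_filter.1 hZ
          have h3 := add_sets p hp 𝒵 k₀ D₂ hD₂ h {Z, Z₀}
            (by
              intro W hW
              rcases mem_insert.1 hW with rfl | hW
              · exact hZ1
              · rw [mem_singleton.1 hW]; exact hZ₀) i
            (by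
              have := card_le_two (a := Z) (b := Z₀)
              omega)
          refine h3.trans (le_of_eq ?_)
          congr 1
          unfold PP
          rw [← pow_add, biUnion_insert, singleton_biUnion, id, id,
            ← card_sdiff_add_card Z Z₀, add_comm]
      _ = D₂ ^ i * (p ^ Z₀.card * ∑ Z ∈ 𝒵.filter fun Z => Z ≠ Z₀ ∧ (Z ∩ Z₀).Nonempty,
            p ^ (Z \ Z₀).card) := by
          rw [← mul_sum, ← mul_sum]
      _ ≤ D₂ ^ i * (p ^ Z₀.card * ε) := by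
          apply mul_le_mul_of_nonneg_left _ (pow_nonneg hD₂ i)
          exact mul_le_mul_of_nonneg_left (h2 Z₀ hZ₀) (pow_nonneg hp _)
  calc ∑ Z₀ ∈ 𝒵, ∑ t ∈ (𝒵.filter fun Z => Z ≠ Z₀ ∧ (Z ∩ Z₀).Nonempty) ×ˢ
        𝒵.powersetCard i, PP p (t.2 ∪ {t.1, Z₀})
      ≤ ∑ Z₀ ∈ 𝒵, D₂ ^ i * (p ^ Z₀.card * ε) := sum_le_sum hb
    _ = D₂ ^ i * ((∑ Z₀ ∈ 𝒵, p ^ Z₀.card) * ε) := by rw [sum_mul, mul_sum]
    _ ≤ D₂ ^ i * (D * ε) := by
        apply mul_le_mul_of_nonneg_left _ (pow_nonneg hD₂ i)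
        exact mul_le_mul_of_nonneg_right h1 hε
    _ ≤ (D₂ + 1) ^ k₀ * (D * ε) := by
        apply mul_le_mul_of_nonneg_right _ (by positivity)
        calc D₂ ^ i ≤ (D₂ + 1) ^ i := pow_le_pow_left₀ hD₂ (by linarith) i
          _ ≤ (D₂ + 1) ^ k₀ := pow_le_pow_right₀ (by linarith) (by omega)

/-- Comparison with the independent case. -/
lemma PP_sub (p : ℝ) (hp : 0 ≤ p) (hp1 : p ≤ 1) (J : Finset (Finset α)) :
    (¬ Ov J → PP p J = ∏ Z ∈ J, p ^ Z.card) ∧ |PP p J - ∏ Z ∈ J, p ^ Z.card| ≤ PP p J := by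
  constructor
  · intro h
    unfold PP
    rw [card_biUnion, prod_pow_eq_pow_sum]
    · rfl
    · intro Z hZ W hW hne
      change Disjoint Z W
      by_contra hd
      exact h ⟨W, hW, Z, hZ, hne, by
        rw [disjoint_iff_inter_eq_empty] at hd
        exact nonempty_iff_ne_empty.2 hd⟩
  · have h1 : ∏ Z ∈ J, p ^ Z.card ≤ PP p J := by
      unfold PP
      rw [prod_pow_eq_pow_sum]
      exact pow_le_pow_of_le_one hp hp1 card_biUnion_le
    have h2 : 0 ≤ ∏ Z ∈ J, p ^ Z.card := prod_nonneg fun Z _ => pow_nonneg hp _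
    rw [abs_of_nonneg (by linarith)]
    linarith

theorem main : Pool.Agent.N89.BD.S_BN2 := by
  intro B D
  have hD : (0 : ℝ) < Real.exp (-(2 * D)) / 2 := by positivity
  obtain ⟨N, hN⟩ := Filter.eventually_atTop.1 ((FloorSemiring.tendsto_pow_div_factorial_atTop
    (D : ℝ)).eventually (gt_mem_nhds hD))
  refine ⟨2 * N + 1, Real.exp (-(2 * D)) / 8, by positivity, ?_, ?_⟩
  · have : Real.exp (-(2 * (D : ℝ))) ≤ 1 := by
      rw [Real.exp_le_one_iff]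
      have : (0 : ℝ) ≤ D := Nat.cast_nonneg D
      linarith
    linarith
  intro D₂
  refine ⟨Real.exp (-(2 * D)) / 4 / ((2 * N + 2) * ((D₂ + 1) ^ (2 * N + 1) * (D + 1))),
    by positivity, ?_⟩
  set ε : ℝ := Real.exp (-(2 * D)) / 4 / ((2 * N + 2) * ((D₂ + 1) ^ (2 * N + 1) * (D + 1)))
    with hε
  have hε0 : 0 < ε := by positivity
  intro C α _ _ X 𝒵 p hp0 hp2 hB hB1 hind hsum hadd hov
  classical
  have hp1 : p ≤ 1 := by linarith
  set w : Finset α → ℝ := fun Z => p ^ Z.card with hw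
  have hpw : ∀ Z ∈ 𝒵, 0 ≤ w Z ∧ w Z ≤ 1 / 2 := by
    intro Z hZ
    refine ⟨pow_nonneg hp0 _, ?_⟩
    calc p ^ Z.card ≤ p ^ 1 := pow_le_pow_of_le_one hp0 hp1 (by rw [hB Z hZ]; exact hB1)
      _ ≤ 1 / 2 := by rw [pow_one]; exact hp2
  -- the lower bound for the alternating sum
  have hS : Real.exp (-(2 * D)) / 2 ≤ S w (2 * N + 1) 𝒵 := by
    have h1 := bonf w 𝒵 (fun T hT => ⟨(hpw T hT).1, (hpw T hT).2.trans (by norm_num)⟩)
      (2 * N + 1 + 1)
    have e1 : (-1 : ℝ) ^ (2 * N + 1 + 1) = 1 := Even.neg_one_pow ⟨N + 1, by ring⟩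
    rw [S_succ, e1, one_mul, one_mul] at h1
    have h2 := prod_ge w 𝒵 hpw
    have h3 : Real.exp (-(2 * D)) ≤ Real.exp (-(2 * ∑ T ∈ 𝒵, w T)) :=
      Real.exp_le_exp.2 (by linarith)
    have h4 := es_le w 𝒵 (fun T hT => (hpw T hT).1) (2 * N + 1 + 1)
    have h5 : (∑ T ∈ 𝒵, w T) ^ (2 * N + 1 + 1) / ((2 * N + 1 + 1).factorial : ℕ) ≤
        (D : ℝ) ^ (2 * N + 1 + 1) / ((2 * N + 1 + 1).factorial : ℕ) :=
      div_le_div_of_nonneg_right
        (pow_le_pow_left₀ (sum_nonneg fun T hT => (hpw T hT).1) hsum _) (Nat.cast_nonneg _)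
    have h6 := hN (2 * N + 1 + 1) (by omega)
    linarith
  -- the alternating sum of the probabilities
  set T' : ℝ := ∑ i ∈ range (2 * N + 1 + 1), (-1) ^ i * ∑ J ∈ 𝒵.powersetCard i, PP p J with hT'
  have hdiff : S w (2 * N + 1) 𝒵 - T' ≤ Real.exp (-(2 * D)) / 4 := by
    unfold S
    rw [hT', ← sum_sub_distrib]
    have hterm : ∀ i ∈ range (2 * N + 1 + 1), (-1 : ℝ) ^ i * es w i 𝒵 -
        (-1) ^ i * ∑ J ∈ 𝒵.powersetCard i, PP p J ≤ ((D₂ : ℝ) + 1) ^ (2 * N + 1) * (D * ε) := by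
      intro i hi
      rw [mem_range] at hi
      rw [← mul_sub]
      refine (le_abs_self _).trans ?_
      rw [abs_mul, abs_pow, abs_neg, abs_one, one_pow, one_mul, abs_sub_comm]
      unfold es
      rw [← sum_sub_distrib]
      refine (abs_sum_le_sum_abs _ _).trans ?_
      calc ∑ J ∈ 𝒵.powersetCard i, |PP p J - ∏ T ∈ J, w T|
          ≤ ∑ J ∈ 𝒵.powersetCard i, if Ov J then PP p J else 0 := by
            refine sum_le_sum fun J _ => ?_
            split_ifs with ho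
            · exact (PP_sub p hp0 hp1 J).2
            · rw [(PP_sub p hp0 hp1 J).1 ho, hw]
              simp
        _ = ∑ J ∈ (𝒵.powersetCard i).filter Ov, PP p J := by rw [sum_filter]
        _ ≤ _ := ov_sum p hp0 𝒵 (2 * N + 1) D D₂ ε (Nat.cast_nonneg _) (Nat.cast_nonneg _) hε0.le
            hsum hadd (by
              intro Z₀ hZ₀
              have := hov Z₀ hZ₀
              convert this) i (by omega)
    refine (sum_le_sum hterm).trans ?_
    rw [sum_const, card_range, nsmul_eq_mul]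
    have hd : (D : ℝ) * ε ≤ (D + 1) * ε := mul_le_mul_of_nonneg_right (by linarith) hε0.le
    calc (((2 * N + 1 + 1 : ℕ)) : ℝ) * (((D₂ : ℝ) + 1) ^ (2 * N + 1) * (D * ε))
        ≤ (((2 * N + 1 + 1 : ℕ)) : ℝ) * (((D₂ : ℝ) + 1) ^ (2 * N + 1) * ((D + 1) * ε)) := by
          gcongr
      _ = ((2 * N + 2) * ((D₂ + 1) ^ (2 * N + 1) * (D + 1))) * ε := by
          push_cast
          ring
      _ = Real.exp (-(2 * D)) / 4 := by
          rw [hε]
          field_simp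
  -- the indicator functions
  set q : C → Finset α → ℝ := fun c T => if (↑T : Set α) ⊆ X c then 1 else 0 with hq
  have hprod : ∀ (c : C) (I : Finset (Finset α)), ∏ T ∈ I, q c T =
      if ∀ T ∈ I, (↑T : Set α) ⊆ X c then 1 else 0 := by
    intro c I
    split_ifs with h
    · exact prod_eq_one fun T hT => by rw [hq]; exact if_pos (h T hT)
    · push Not at h
      obtain ⟨T, hT, hc⟩ := h
      exact prod_eq_zero hT (by rw [hq]; exact if_neg hc)
  have hcard : ∀ I : Finset (Finset α), ∑ c : C, ∏ T ∈ I, q c T =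
      (({c : C | ∀ T ∈ I, (↑T : Set α) ⊆ X c}.ncard : ℕ) : ℝ) := by
    intro I
    rw [Set.ncard_eq_toFinset_card', sum_congr rfl fun c _ => hprod c I, sum_boole]
    congr 2
    ext c
    simp
  have hsumS : ∑ c : C, S (q c) (2 * N + 1) 𝒵 = Fintype.card C * T' := by
    unfold S
    rw [sum_comm, hT', mul_sum]
    refine sum_congr rfl fun i hi => ?_
    rw [mem_range] at hi
    rw [← mul_sum]
    unfold es
    rw [sum_comm, mul_left_comm]
    congr 1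
    rw [mul_sum]
    refine sum_congr rfl fun I hI => ?_
    obtain ⟨h1, h2⟩ := mem_powersetCard.1 hI
    rw [hcard, hind I h1 (by omega)]
    rfl
  have hpt : ∀ c : C, S (q c) (2 * N + 1) 𝒵 ≤
      1 - if ∃ T ∈ 𝒵, (↑T : Set α) ⊆ X c then (1 : ℝ) else 0 := by
    intro c
    have h1 := bonf (q c) 𝒵 (fun T _ => by
      rw [hq]
      simp only
      split_ifs <;> norm_num) (2 * N + 1)
    have e1 : (-1 : ℝ) ^ (2 * N + 1) = -1 := Odd.neg_one_pow ⟨N, rfl⟩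
    rw [e1] at h1
    have h2 : ∏ T ∈ 𝒵, (1 - q c T) =
        1 - if ∃ T ∈ 𝒵, (↑T : Set α) ⊆ X c then (1 : ℝ) else 0 := by
      split_ifs with h
      · obtain ⟨T, hT, hc⟩ := h
        rw [prod_eq_zero hT (by rw [hq]; simp only; rw [if_pos hc]; norm_num)]
        norm_num
      · push Not at h
        rw [sub_zero]
        exact prod_eq_one fun T hT => by
          rw [hq]
          simp only
          rw [if_neg (h T hT)]
          norm_num
    rw [← h2]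
    linarith
  have hex : (({c : C | ∃ T ∈ 𝒵, (↑T : Set α) ⊆ X c}.ncard : ℕ) : ℝ) =
      ∑ c : C, if ∃ T ∈ 𝒵, (↑T : Set α) ⊆ X c then (1 : ℝ) else 0 := by
    rw [Set.ncard_eq_toFinset_card', sum_boole]
    congr 2
    ext c
    simp
  have h1 : ∑ c : C, S (q c) (2 * N + 1) 𝒵 ≤
      ∑ c : C, (1 - if ∃ T ∈ 𝒵, (↑T : Set α) ⊆ X c then (1 : ℝ) else 0) :=
    sum_le_sum fun c _ => hpt c
  rw [hsumS, sum_sub_distrib, ← hex, sum_const, card_univ, nsmul_eq_mul, mul_one] at h1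
  have h2 : (Fintype.card C : ℝ) * (Real.exp (-(2 * D)) / 4) ≤ Fintype.card C * T' :=
    mul_le_mul_of_nonneg_left (by linarith) (Nat.cast_nonneg _)
  linarith

end Pool.Agent.N935.BD.BN2
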